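import Pool.Agent.Run7.h199.FD.Gen

/-!
# A smooth proper dg category is Kimura-finite if 51 percent of its tensor powers are

`C` is a `ℚ`-linear pseudo-abelian rigid symmetric monoidal category with finite direct sums in which the
endomorphisms of the unit object are the rational numbers, for the problem the category `NChow(k)_ℚ` of
noncommutative Chow motives, where `End(U(k)) = K_0(k)_ℚ = ℚ`, and `R` is a realisation in finite
dimensional super vector spaces, for example periodic cyclic homology in characteristic zero (and
topological periodic cyclic homology in positive characteristic); `b(M)` is the dimension of the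
realisation of `M`, for example the dimension of the periodic cyclic homology of the dg category.

`S` is a class of objects which contains the unit and is stable under direct sums, tensor products and
duals (`TensorClosed`), for example

* all objects; or
* the noncommutative motives of commutative origin, that is, of the form `U(perf(X))`, `X` smooth and
  proper over `k` (sums are disjoint unions, tensor products are products, these objects are self-dual);
* the finite sums of the unit `U(k)`, as for a full exceptional collection.

Let `c(M)` be the largest dimension of a direct summand of `M` which is the sum of an evenly and an oddly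
finite-dimensional object (in the sense of Kimura: some exterior, respectively symmetric, power
vanishes), both direct summands of objects in `S` (`KS S`). So for the class of all objects `c(M)` is the
largest dimension of a Kimura-finite direct summand, and `c(M) ≤ b(M)`, with equality if and only if `M`
is such a direct summand up to a phantom, a direct summand with zero realisation (`UpToPhantom`). If
there are no phantoms in `M` this means that `M` is Kimura-finite and a direct summand of an object in `S`.

**Theorem.** For all `M`, `N`

  `c(M) c(N) ≤ c(M ⊗ N) ≤ c(M) c(N) + (b(M) - c(M)) (b(N) - c(N))`.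

If `c(M) < b(M)`, then for all `n`

  `c(M^n) ≤ (b^n + (b - 2)^n) / 2` or `c(M^(n+1)) ≤ (b^(n+1) + (b - 2)^(n+1)) / 2`, where `b = b(M)`.

So `U(A)` is Kimura-finite up to a phantom (or Kimura-finite and of commutative origin up to a phantom) if
for all large `n`, or for two consecutive `n` with `(1 - 2 / b)^n < 0.02`, a direct summand of the motive
of the tensor power `A^(⊗ n)` of dimension at least `0.51 b^n` is; nothing is assumed about the other 49
percent, and no relation between the direct summands for different `n`. Even the share
`1 / 2 + f(b^n)` suffices, if `f(y) y^κ → ∞` for all `κ > 0`, for example `f(y) = 1 / log y`.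

In this generality the constant `1 / 2` and the bound are sharp: let `X` be the generator of Deligne's
category `Rep(O_t)` for `t = 1` (Karoubian, over `ℚ`), realised by `Rep(O(1))`; `X` has dimension one and
is not Kimura-finite, and `X ⊗ X` is the sum of the unit and a phantom. For `M = 1 ⊕ X` one has
`2 c(M^n) = b^n` for all `n ≥ 1`.

The classes `KS S` are stable under direct sums, direct summands, tensor products (with the rule of signs)
and duals, and the endomorphisms of their objects are algebraic over `ℚ` (`FDClass`; for the class of
all objects these are theorems of Kimura, all are proved here in Lean). Only this is used.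

The proof of the law. Choose the direct summands in the even and in the odd class of the largest
dimensions. They can be modified so that they are complementary; let `e_M` be the idempotent of their sum.
If `f` factors through an object in the classes then the trace of `f (1 - e_M)` is zero: otherwise
`(1 - e_M) f (1 - e_M)` gives an endomorphism of an object in the class which is algebraic and not
nilpotent, and with the idempotent of its invertible part one gets a further direct summand of `M`. Now
`q = e_M ⊗ (1 - e_N) + (1 - e_M) ⊗ e_N` has trace zero against all endomorphisms of `M ⊗ N` which factor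
through an object in the class (partial traces), so for each direct summand of `M ⊗ N` in the class `q`
is nilpotent on it in the realisation, and `1 - q` is injective on it. The rank of
`1 - q = e_M ⊗ e_N + (1 - e_M) ⊗ (1 - e_N)` is the right side of the inequality. It says that
`2 c(M^(n+1)) - b^(n+1)` is at most `(2 c(M) - b) (2 c(M^n) - b^n)`.
-/

set_option autoImplicit false

open CategoryTheory Limits MonoidalCategory Filter

namespace Pool.Agent.Results.MP_6e5bed_ag.FiftyOnePercent

open Pool.Agent.Y112.SR Pool.Agent.Y112.KD Pool.Agent.R484.NC Pool.Agent.R905 Run7.h199.FD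

universe v u w

/-- **The fifty-one percent law for noncommutative motives.** -/
theorem result {C : Type u} [Category.{v} C] [Preadditive C] [Linear ℚ C] [MonoidalCategory C]
    [MonoidalPreadditive C] [MonoidalLinear ℚ C] [SymmetricCategory C] [RightRigidCategory C]
    [HasBinaryBiproducts C] [IsIdempotentComplete C] (hU : UnitQ C) {K : Type w} [Field K]
    (R : SuperRealisation C K) (S : C → Prop) (hS : TensorClosed S) :
    (∀ M : C, IsGreatest {d | ∃ p : Part (KS S) M, p.dim R = d} (cdim R (KS S) M)) ∧
    (∀ M : C, cdim R (KS S) M ≤ totalDim R M ∧
      (cdim R (KS S) M = totalDim R M ↔ UpToPhantom R (KS S) M)) ∧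
    (∀ M : C, (∀ e : M ⟶ M, e ≫ e = e → R.H.map e = 0 → e = 0) →
      (UpToPhantom R (KS S) M ↔
        IsKimuraFinite M ∧ ∃ (T : C) (i : M ⟶ T) (r : T ⟶ M), S T ∧ i ≫ r = 𝟙 M)) ∧
    (∀ M N : C, cdim R (KS S) M * cdim R (KS S) N ≤ cdim R (KS S) (M ⊗ N) ∧
      cdim R (KS S) (M ⊗ N) ≤ cdim R (KS S) M * cdim R (KS S) N +
        (totalDim R M - cdim R (KS S) M) * (totalDim R N - cdim R (KS S) N)) ∧
    (∀ (M : C) (n : ℕ), totalDim R (pow M n) = totalDim R M ^ n) ∧
    (∀ M : C, ¬ UpToPhantom R (KS S) M → ∀ n, HalfAt R (KS S) M n) ∧
    (∀ ε : ℝ, 0 < ε → ε ≤ 1 / 2 → ∀ M : C, (UpToPhantom R (KS S) M ↔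
      ∃ n₀, ∀ n ≥ n₀, MoreThanHalf R (KS S) (fun _ => ε) (pow M n))) ∧
    (∀ f : ℕ → ℝ, (∀ y, 0 ≤ f y) →
      (∀ κ : ℝ, 0 < κ → Tendsto (fun y : ℕ => f y * (y : ℝ) ^ κ) atTop atTop) →
      ∀ M : C, (∃ n₀, ∀ n ≥ n₀, MoreThanHalf R (KS S) f (pow M n)) → UpToPhantom R (KS S) M) :=
  have hE := fdClass_of R hU hS
  ⟨cdim_isGreatest hE, fun M => ⟨cdim_le hE M, cdim_eq_iff hE M⟩,
    fun _ hM => kimura_iff_of R hS hM,
    fun M N => ⟨le_cdim_tensor hE M N, cdim_tensor_le hU hE M N⟩, totalDim_pow,
    fun _ hM n => halfAt hU hE hM n, fun ε h0 h1 M => iffConst hU hE ε h0 h1 M,
    fun f hf0 hf M h => fromRate hU hE f hf0 hf M h⟩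

end Pool.Agent.Results.MP_6e5bed_ag.FiftyOnePercent
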