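import Pool.Agent.Run7.h848.XG.UniformDual

/-!
# Kimura-finiteness of a dg category: one tensor power decides, with an explicit bound

Let `𝒜` be a smooth proper dg category over the field `k`, `b ≥ 1` the dimension of its periodic cyclic
homology (characteristic zero; in positive characteristic: of its topological periodic cyclic
homology), and suppose that the noncommutative sign conjecture holds for `𝒜` (the projector to the even
part is induced by a class in `K_0(𝒜^op ⊗ 𝒜)_ℚ`; it is known for instance for `perf_dg(X)` if it is known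
for `X`). Let `M = b + 1`, let `ε(n)` be the rank of `K_0((𝒜^op ⊗ 𝒜)^(⊗ n)) = End(U(𝒜)^(⊗ n))` modulo numerical
equivalence (`ε(n) ≤ b ^ (2 n)`), and

  `N(b) = 4 (b + 1) b ^ (4 (b + 1))`.

**Theorem.** (1) (one power decides) If `dim K_0((𝒜^op ⊗ 𝒜)^(⊗ N))_ℚ ≤ b ^ (2 N)` for the ONE number `N = N(b)`, then
`U(𝒜)_ℚ` is Kimura-finite.

(2) (gap) Let `y` be an element of `K_0((𝒜^op ⊗ 𝒜)^(⊗ m))_ℚ = End(U(𝒜)^(⊗ m))`, `m ≥ 0`, which is numerically trivial and
not nilpotent (for the composition). Then for ALL `n ≥ 0`

  `dim K_0((𝒜^op ⊗ 𝒜)^(⊗ m n))_ℚ ≥ S_m(n) = ∑ i ≤ n, (n choose i) ε(m (n - i))`.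

(3) `S_m(n) ≥ (b ^ (2 m) + 1) ^ n / (m n + 1) ^ (b ^ 2)` for all `m` and `n`.

(4) If the elements of `K_0((𝒜^op ⊗ 𝒜)^(⊗ (b + 1)))_ℚ` which act as zero on periodic cyclic homology are nilpotent (for
the composition), then `U(𝒜)_ℚ` is Kimura-finite. In other words: if `U(𝒜)_ℚ` is not Kimura-finite then (2) holds with
`m = b + 1 = M`.

So if `U(𝒜)_ℚ` is not Kimura-finite then the growth rate of these dimensions (with respect to the exponent `M n`) is at
least `(b ^ (2 b + 2) + 1) ^ (1 / (b + 1)) > b ^ 2`, a number which depends on `b` only.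

(This file replaces the file `ExponentialGap` of the same author, which had (2) and (3), with a non-explicit number
`c > b ^ 2` in place of (1) and (4).) The version for self-dual objects and modulo smash-nilpotence is
`MP_868bb7_ag.OnePowerDecides`; here no duality is assumed.

The setting. `C` is the `ℚ`-linear rigid symmetric monoidal category `NChow(k)_ℚ` of the problem,
`End(U(k)_ℚ) = K_0(k)_ℚ = ℚ`, `T = U(𝒜)_ℚ`, `R` the realisation, after extension of the coefficients to an
algebraically closed field, `tp T n` the `n`-th tensor power, `bt` the dimension of the realisation.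

Proof. (2): if the dimension is finite, a polynomial in `y` is an idempotent `p ≠ 0` (Fitting); its insertions into
`i` of the `n` factors of `(T ⊗ T^*) ^ (m n)`, together with arbitrary classes on the other factors, are independent
modulo numerical equivalence (`many_dual`). (3) is the binomial theorem and the bound `ε(k) ≥ b ^ (2 k) / (k + 1) ^ (b ^ 2)`
of the starting tree (`N64/AF`). (4): nilpotence on `T ^ (b + 1)` implies nilpotence on `T ^ n`, `n ≤ b`, by partial
traces (`homNil_of_tensor` in the starting tree: the even minus the odd projector of `T` has trace `b ≠ 0`). So `T` is a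
sum of an even part `E` and an odd part `O`. The antisymmetrizer of `E ^ (e + 1)`, `e ≤ b` the dimension of `E`, has trace
zero, so it acts as zero on the realisation, so it is nilpotent and idempotent, so zero. (1): for `n = 4 b ^ (4 M)` one
has `(b ^ (2 M) + 1) ^ n > (M n + 1) ^ (b ^ 2) b ^ (2 M n)`, and `N(b) = M n`.
-/

set_option autoImplicit false

open CategoryTheory MonoidalCategory
open Pool.Agent.Y112.SR Pool.Agent.Y112.KD Pool.Agent.N64.AF Pool.Agent.Run7.h848.XG

namespace Pool.Agent.Results.MP_6e5bed_ag.OnePowerDecides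

universe v u w

/-- Kimura-finiteness is decided by one tensor power; explicit uniform growth otherwise. -/
theorem result {C : Type u} [Category.{v} C] [Preadditive C] [MonoidalCategory C]
    [MonoidalPreadditive C] [SymmetricCategory C] [RightRigidCategory C]
    [Linear ℚ C] [MonoidalLinear ℚ C] [IsIdempotentComplete C]
    {K : Type w} [Field K] [IsAlgClosed K] [Algebra ℚ K] {R : SuperRealisation C K}
    (hR : IsReal ℚ R) {T : C} (hT : R.CPlus T) (hb : 0 < bt R T) :
    (dimE ℚ (tp T (decisiveEnd (bt R T)) ⟶ tp T (decisiveEnd (bt R T))) ≤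
      (bt R T ^ (2 * decisiveEnd (bt R T)) : ℕ) → Pool.Agent.R905.IsKimuraFinite T) ∧
    (∀ (m : ℕ) (y : End (tp T m)), NumTriv (y : tp T m ⟶ tp T m) → ¬ IsNilpotent y → ∀ n : ℕ,
      ((∑ i ∈ Finset.range (n + 1), n.choose i *
        homRank ℚ (tp T (m * (n - i))) (tp T (m * (n - i))) : ℕ) : ℕ∞) ≤
      dimE ℚ (tp T (m * n) ⟶ tp T (m * n))) ∧
    (∀ m n : ℕ, (bt R T ^ (2 * m) + 1) ^ n ≤ (m * n + 1) ^ (bt R T ^ 2) *
      ∑ i ∈ Finset.range (n + 1), n.choose i *
        homRank ℚ (tp T (m * (n - i))) (tp T (m * (n - i)))) ∧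
    ((∀ y : End (tp T (bt R T + 1)), R.H.map (y : tp T (bt R T + 1) ⟶ tp T (bt R T + 1)) = 0 →
      IsNilpotent y) → Pool.Agent.R905.IsKimuraFinite T) := by
  refine ⟨one_power_end hR hT hb, fun m y hy hyn n => ?_, sum_ge_end hR hT,
    kimura_of_nil_one' hR hT hb⟩
  have h1 := many_dual hR hT hb m (fun h1 => hyn (h1 y hy)) n
  obtain ⟨ψ⟩ := nonempty_equiv_tensor_dual (Λ := ℚ) T (m * n)
  refine le_trans (le_of_eq ?_) (h1.trans (dimE_le_of_injective ψ.toLinearMap ψ.injective))
  congr 1
  refine Finset.sum_congr rfl fun i _ => ?_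
  rw [numRank_tensor_dual hR, homRank_eq]

end Pool.Agent.Results.MP_6e5bed_ag.OnePowerDecides
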