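import Pool.Agent.Run7.h570.GAP.OddMain

/-!
# MP_6e5bed_ag: one relation in K-theory suffices for Kimura-finiteness of a noncommutative motive

The theorem and its proof are due to helper570 (first handed in as `MP_868bb7_ag.OneRelation`, for Chow
groups); here the rings are read as the rational Grothendieck groups `K_0(X ^ m)_ℚ`, that is, as the groups of
morphisms between the noncommutative Chow motives of the powers of the dg category `A = perf_dg(X)`.

Let `X` be a smooth projective variety over a field `k` of
characteristic zero, `A = perf_dg(X)`. Then `A ^ ⊗ m = perf_dg(X ^ m)` and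
`Hom(U(A ^ ⊗ m), U(A ^ ⊗ n)) = K_0(X ^ m × X ^ n)_ℚ`; pull-backs, the push-forwards of the projections
`X ^ (m + 1) → X ^ m` (Euler characteristics along the fibres) and the class `Δ` of the structure sheaf of the
diagonal satisfy the formulas of `PowerRings`. Suppose that the even periodic cyclic homology of `A` has
dimension `b` and is spanned by classes `a_i` in `K_0(X)_ℚ` with `χ(a_i ⊗ a_j) = G_(i, j)`, `G` invertible, and that
the odd periodic cyclic homology has dimension `2 n`: for instance `X` a smooth quintic threefold, `b = 4` and
`2 n = 204`, or any complete intersection of odd dimension. Let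

`t = Δ - ∑ (G⁻¹)_(i, j) a_i × a_j ∈ K_0(X × X)_ℚ`,

so that `U(A)_ℚ` is the direct sum of `b` copies of the unit and of the image of the idempotent `t`, and
`U(A)_ℚ` is Kimura-finite if and only if `Sym^N t = 0` for some `N`. The Euler number
`χ(Δ ⊗ Δ)` is `b - 2 n`.

Theorem.

1. The following are equivalent:
   * the sum of the products `t_(i_1, j_1) ⋯ t_(i_(n+1), j_(n+1))` over all partitions of the `2 n + 2`
     factors of `X ^ (2 n + 2)` into pairs is zero in `K_0(X ^ (2 n + 2))_ℚ`;
   * `Sym^(2 n + 1) t = 0`;
   * `Sym^N t = 0` for some `N`.
2. If these conditions are not satisfied (`U(A)_ℚ` is not Kimura-finite), then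
   * **growth**: at least `((b + 2 n + 4) ^ m + (b - 2 n - 4) ^ m) / (2 binomial(⌊m / 2⌋ + D, D))`,
     `D = (2 n + 3) (2 n + 5)`, of the products on `X ^ m` of disjoint diagonals and classes `a_i` (each
     factor of `X ^ m` used once) are linearly independent in `K_0(A ^ ⊗ m)_ℚ`. If `U(A)_ℚ` is Kimura-finite,
     then their span embeds into periodic cyclic homology, and has the dimension at most `(b + 2 n) ^ m`. So the
     exponential rate is at most `b + 2 n`, or at least `b + 2 n + 4`.
   * **the relations**: every element `c` of the group ring of the symmetric group `S_k` which acts by zero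
     on the `k`-th tensor power of the image of `t` acts by zero on the `k`-th tensor power of the super vector
     space with `2` even and `2 n + 2` odd dimensions.
   * **one relation suffices**: for all `m < 6 (n + 2)` the `(m - 1)!!` products of the pull-backs
     of `t` to `X ^ m` for the partitions of the factors into pairs are linearly independent. For the
     quintic threefold: one nontrivial linear relation with rational coefficients between the
     `(m - 1)!!` products in one `K_0(X ^ m)_ℚ`, `m < 624`, is sufficient for `U(A)_ℚ` to be Kimura-finite.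
-/

set_option autoImplicit false

open Pool.Agent.Run7.h570.GAP

namespace Pool.Agent.Results.MP_6e5bed_ag.OneRelation

universe u

/-- Let `R` be a system `A(m)` of rings with the formal properties of the rational Chow rings, or of the rational
Grothendieck rings `K_0(X ^ m)_ℚ`, of the powers of a variety, `a_i` classes in `A(1)` with the invertible symmetric intersection matrix `G` of rank `b`, let the
Euler number be `b - 2 n`, and `t = tr R a G` the complement of the part of the diagonal given by the `a_i`. -/
theorem result {R : PowerRings.{u}} {b : ℕ} {a : Fin b → R.A 1} {G : Matrix (Fin b) (Fin b) ℚ}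
    (h : PreTate R a G) (n : ℕ)
    (he : R.push (R.push (R.diag * R.diag)) = algebraMap ℚ (R.A 0) (b - 2 * n)) :
    [HafZero (tr R a G) (n + 1), SymZero (tr R a G) (2 * n + 1),
      ∃ N, SymZero (tr R a G) N].TFAE ∧
    ((∀ N, ¬ SymZero (tr R a G) N) →
      (∀ m : ℕ, ∃ (N : ℕ) (v : Fin N → R.A m), (∀ j, IsProduct R a m (v j)) ∧
        LinearIndependent ℚ v ∧ ((b : ℤ) + (2 * n + 4 : ℕ)) ^ m + ((b : ℤ) - (2 * n + 4 : ℕ)) ^ m ≤
          2 * ((m / 2 + (2 * n + 3) * (2 * n + 5)).choose ((2 * n + 3) * (2 * n + 5)) : ℕ) * N) ∧
      (∀ (k : ℕ) (c : Equiv.Perm (Fin k) → ℚ),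
        ∑ σ, c σ • ∏ i, R.pull ![Fin.castAdd k i, Fin.natAdd k (σ i)] (tr R a G) = 0 →
          SuperRel (fun x : Fin (2 * n + 4) => decide (2 ≤ (x : ℕ))) c) ∧
      (∀ m < 6 * (n + 2), LinearIndependent ℚ (fun τ : Matching m => mprod (tr R a G) τ))) :=
  h.oddGap n he

end Pool.Agent.Results.MP_6e5bed_ag.OneRelation
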