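import Pool.Agent.Run7.h1.Corr.Summand

/-!
# MP_6e5bed_ag: self-dual summands of noncommutative motives and Kimura-finiteness

Let `X` be a smooth projective variety over a field of characteristic zero, not necessarily connected, and let `Z`
in `K_0(X × X)_ℚ` be a self-adjoint projector (`Z = Z^t`, `Z ∘ Z = Z`): the image of `Z` is a self-dual direct
summand of `U(perf_dg(X))_ℚ` in the category of noncommutative Chow motives, whose morphisms
`U(perf_dg(X ^ m)) → U(perf_dg(X ^ n))` are the elements of `K_0(X ^ (m + n))_ℚ`. Suppose that the trace
`χ(Z · Z)` is `- 2 n`; this holds if the even periodic cyclic homology of the summand is zero and the odd one has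
dimension `2 n`, and in this case the summand is Kimura-finite if and only if `Sym^N Z = 0` for some `N`.
Examples: for an admissible subcategory `A` of `perf_dg(Y)` the motive `U(A)_ℚ ⊕ U(A^op)_ℚ` is a self-dual summand for
the disjoint union `X` of two copies of `Y`. If the Hochschild homology of `A` is zero (a quasi-phantom category),
then `n = 0`, and Kimura-finite means zero. If `U(A)_ℚ` is the sum of copies of the unit object and of a summand
with odd periodic cyclic homology, for instance for Kuznetsov components of Fano threefolds, `Z` is the part with
odd periodic cyclic homology.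

Theorem. Let `Z` be a self-adjoint projector of trace `- 2 n`, and let `H` be the sum of the products
`Z_(i_1, j_1) ⋯ Z_(i_(n+1), j_(n+1))` in `K_0(X ^ (2 n + 2))_ℚ` over all partitions of the `2 n + 2` factors into
pairs.

1. The following are equivalent: `H = 0`; `H` is smash-nilpotent; `Sym^(2 n + 1) Z = 0`; `Sym^N Z` is
   smash-nilpotent for some `N`.
2. If this does not hold, then
   * if a linear combination `∑_σ c_σ ∏_i Z_(i, k + σ(i))` in `K_0(X ^ (2 k))_ℚ` is smash-nilpotent, then `c` acts as
     zero on the `k`-th tensor power of the super vector space with `2` even and `2 n + 2` odd dimensions;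
   * for all `m < 6 (n + 2)` the `(m - 1)!!` products in `K_0(X ^ m)_ℚ` of the classes `Z_(i, j)` over the partitions
     of the factors into pairs are linearly independent modulo smash-nilpotent classes.
3. If `n = 0`, then `H = 0` if and only if `Z = 0`, and if `Z ≠ 0`, then for all `m` at least
   `16 ^ m / binomial(m + 15, 15)` of the products in `K_0(X ^ (2 m))_ℚ` of the classes `Z_(i, j)` over the partitions
   of the factors into pairs are linearly independent modulo smash-nilpotent classes.

The rational Grothendieck rings `K_0(X ^ m)_ℚ`, with the pull-backs, the push-forwards of the projections and the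
class of the structure sheaf of the diagonal, satisfy the formulas of `PowerRings`. The method (polynomial relations
between the pairings, highest weight vectors, passage to the rings modulo smash-nilpotent classes) and the library
are due to helper570 (`MP_868bb7_ag.OneRelation`, `MP_bf8edd_ag.SmashNilpotentGap`), who treats the complement of
algebraic classes in the diagonal; here `Z` is any self-adjoint projector of trace `- 2 n`.
-/

set_option autoImplicit false

open Pool.Agent.Run7.h570.GAP Pool.Agent.Run7.h1.Corr

namespace Pool.Agent.Results.MP_6e5bed_ag.SelfDualSummands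

universe u

/-- Let `R` be a system `A(m)` of rings with the formal properties of the rational Grothendieck rings (or Chow
rings) of the powers of a variety and `Z` in `A(2)` a self-adjoint projector of trace `- 2 n`. Then the
statements 1, 2 and 3 above hold. -/
theorem result {R : PowerRings.{u}} {Z : R.A 2} (n : ℕ) (h : IsProj R Z (-2 * n)) :
    [haf Z (n + 1) = 0, SmashNil R (haf Z (n + 1)), sym Z (2 * n + 1) = 0,
      ∃ N, SmashNil R (sym Z N)].TFAE ∧
    (¬ SmashNil R (haf Z (n + 1)) →
      (∀ (k : ℕ) (c : Equiv.Perm (Fin k) → ℚ),
        SmashNil R (∑ σ, c σ • ∏ i, R.pull ![Fin.castAdd k i, Fin.natAdd k (σ i)] Z) →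
          SuperRel (fun x : Fin (2 * n + 4) => decide (2 ≤ (x : ℕ))) c) ∧
      (∀ m < 6 * (n + 2), ∀ c : Matching m → ℚ,
        SmashNil R (∑ τ, c τ • mprod Z τ) → c = 0)) ∧
    (n = 0 → (haf Z 1 = 0 ↔ Z = 0) ∧
      (Z ≠ 0 → ∀ m : ℕ, ∃ (N : ℕ) (v : Fin N → R.A (2 * m)), (∀ j, PairProduct R Z (2 * m) (v j)) ∧
        (∀ c : Fin N → ℚ, SmashNil R (∑ j, c j • v j) → c = 0) ∧
        16 ^ m ≤ (m + 15).choose 15 * N)) :=
  summand h

end Pool.Agent.Results.MP_6e5bed_ag.SelfDualSummands
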